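import Pool.Agent.X882.FB.NOne

/-!
The real-analytic boundary of a Fatou-Bieberbach domain in `ℂⁿ` contains a germ of at most one
irreducible algebraic hypersurface.
-/

set_option autoImplicit false

open Topology

namespace Pool.Agent.Results.MP_955e70_an.AtMostOne

/-- Let `Ω ⊆ ℂⁿ` be open and biholomorphic to `ℂⁿ`, with real-analytic boundary in the sense of the
problem. Let `T₁`, `T₂` be irreducible polynomials such that, near some zero of `Tᵢ`, all zeros of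
`Tᵢ` are boundary points of `Ω`. Then `T₁` and `T₂` are proportional: at most one irreducible
algebraic hypersurface has a piece in the boundary. -/
theorem result (n : ℕ) (Ω : Set (Fin n → ℂ)) (hΩ : IsOpen Ω)
    (hFB : ∃ F G : (Fin n → ℂ) → (Fin n → ℂ), DifferentiableOn ℂ F Ω ∧ Differentiable ℂ G ∧
      (∀ y, G y ∈ Ω) ∧ (∀ x ∈ Ω, G (F x) = x) ∧ (∀ y, F (G y) = y))
    (hbd : ∀ p ∈ frontier Ω, ∃ ρ : (Fin n → ℂ) → ℝ, AnalyticAt ℝ ρ p ∧ fderiv ℝ ρ p ≠ 0 ∧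
      ∃ U ∈ 𝓝 p, ∀ z ∈ U, z ∈ Ω ↔ ρ z < 0)
    (T₁ T₂ : MvPolynomial (Fin n) ℂ) (hT₁ : Irreducible T₁) (hT₂ : Irreducible T₂)
    (p₁ p₂ : Fin n → ℂ) (hp₁ : MvPolynomial.eval p₁ T₁ = 0) (hp₂ : MvPolynomial.eval p₂ T₂ = 0)
    (hg₁ : ∀ᶠ z in 𝓝 p₁, MvPolynomial.eval z T₁ = 0 → z ∈ frontier Ω)
    (hg₂ : ∀ᶠ z in 𝓝 p₂, MvPolynomial.eval z T₂ = 0 → z ∈ frontier Ω) :
    Associated T₁ T₂ := by
  obtain ⟨F, G, h1, h2, h3, h4, h5⟩ := hFB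
  exact X882.FB.N.at_most_one (F := F) (G := G) ⟨hΩ, h1, h2, h3, h4, h5⟩ hbd hT₁ hT₂ hp₁ hp₂
    hg₁ hg₂

end Pool.Agent.Results.MP_955e70_an.AtMostOne
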