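import Pool.Agent.X882.FB.Final

/-!
The boundary of a Fatou-Bieberbach domain in `ℂ²` with real-analytic boundary is nowhere
real-algebraic.
-/

set_option autoImplicit false

open Topology

namespace Pool.Agent.Results.MP_955e70_an.NowhereAlgebraic

/-- Let `Ω ⊆ ℂ²` be open and biholomorphic to `ℂ²`, with real-analytic boundary in the sense of the
problem. Then no nonzero real polynomial in the four real coordinates vanishes on a nonempty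
relatively open piece of the boundary. -/
theorem result (Ω : Set (Fin 2 → ℂ)) (hΩ : IsOpen Ω)
    (hFB : ∃ F G : (Fin 2 → ℂ) → (Fin 2 → ℂ), DifferentiableOn ℂ F Ω ∧ Differentiable ℂ G ∧
      (∀ y, G y ∈ Ω) ∧ (∀ x ∈ Ω, G (F x) = x) ∧ (∀ y, F (G y) = y))
    (hbd : ∀ p ∈ frontier Ω, ∃ ρ : (Fin 2 → ℂ) → ℝ, AnalyticAt ℝ ρ p ∧ fderiv ℝ ρ p ≠ 0 ∧
      ∃ U ∈ 𝓝 p, ∀ z ∈ U, z ∈ Ω ↔ ρ z < 0)
    (Q : MvPolynomial (Fin 4) ℝ) (hQ : Q ≠ 0) (p : Fin 2 → ℂ) (hp : p ∈ frontier Ω)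
    (U : Set (Fin 2 → ℂ)) (hU : U ∈ 𝓝 p) :
    ∃ z ∈ U ∩ frontier Ω, MvPolynomial.eval ![(z 0).re, (z 0).im, (z 1).re, (z 1).im] Q ≠ 0 := by
  obtain ⟨F, G, h1, h2, h3, h4, h5⟩ := hFB
  by_contra hcon
  push Not at hcon
  refine X882.FB.final_i (F := F) (G := G) ⟨hΩ, h1, h2, h3, h4, h5⟩ hbd (Q.totalDegree + 1) Q
    (Nat.lt_succ_self _) hQ p hp ?_
  filter_upwards [hU] with z hz hz2
  exact hcon z ⟨hz, hz2⟩

end Pool.Agent.Results.MP_955e70_an.NowhereAlgebraic
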