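import Pool.Agent.X882.FB.TwoFinal

/-!
Domains of `ℂⁿ` biholomorphic to `ℂⁿ` and boundaries given near one point by a real polynomial in
two holomorphic functions.
-/

set_option autoImplicit false

open Topology

namespace Pool.Agent.Results.MP_955e70_an.TwoFunctions

/-- Let `Ω ⊆ ℂⁿ` be open and biholomorphic to `ℂⁿ`, let `q` be a boundary point of `Ω`, and let
`E = (f, g)` be a pair of functions holomorphic on `Ω` and near `q`, whose complex derivative at `q`
is surjective. Let `Q` be a real polynomial in four real variables whose gradient at the point of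
`ℂ² = ℝ⁴` given by `E q` is not zero. If `Q(Re f, Im f, Re g, Im g)` vanishes on the boundary of
`Ω` near `q`, then it has a zero in `Ω`. -/
theorem result (n : ℕ) (Ω : Set (Fin n → ℂ)) (hΩ : IsOpen Ω)
    (hFB : ∃ F G : (Fin n → ℂ) → (Fin n → ℂ), DifferentiableOn ℂ F Ω ∧ Differentiable ℂ G ∧
      (∀ y, G y ∈ Ω) ∧ (∀ x ∈ Ω, G (F x) = x) ∧ (∀ y, F (G y) = y))
    (q : Fin n → ℂ) (hq : q ∈ frontier Ω)
    (E : (Fin n → ℂ) → (Fin 2 → ℂ)) (hE : DifferentiableOn ℂ E Ω) (hEq : AnalyticAt ℂ E q)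
    (hs : Function.Surjective (fderiv ℂ E q))
    (Q : MvPolynomial (Fin 4) ℝ)
    (hd : fderiv ℝ (fun z : Fin 2 → ℂ =>
      MvPolynomial.eval ![(z 0).re, (z 0).im, (z 1).re, (z 1).im] Q) (E q) ≠ 0)
    (hv : ∀ᶠ z in 𝓝 q, z ∈ frontier Ω →
      MvPolynomial.eval ![(E z 0).re, (E z 0).im, (E z 1).re, (E z 1).im] Q = 0) :
    ∃ z ∈ Ω, MvPolynomial.eval ![(E z 0).re, (E z 0).im, (E z 1).re, (E z 1).im] Q = 0 := by
  obtain ⟨F, G, h1, h2, h3, h4, h5⟩ := hFB
  exact X882.FB.final_two (F := F) (G := G) ⟨hΩ, h1, h2, h3, h4, h5⟩ hE hq hEq hs Q hd hv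

end Pool.Agent.Results.MP_955e70_an.TwoFunctions
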